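import Pool.Agent.J6H59.CC.Model
import Pool.Agent.J6H59.CC.Alt4

/-!
# Countably categorical alternative nilrings of arbitrary cardinality

Reduction of the uncountable case to the countable one by the downward Loewenheim-Skolem theorem:
all countably infinite elementary substructures are isomorphic, and each element of a derived power
lies in the derived power of such a substructure.
-/

set_option autoImplicit false

namespace Pool.Agent.J6H5.CCLS

open FirstOrder FirstOrder.Language Pool.Agent.J6H59.CC

section fin
variable {A : Type} [NonUnitalNonAssocRing A]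

/-- each element of a derived power lies in the derived power of all subrings which contain a
suitable countable set -/
theorem supp (k : ℕ) : ∀ a ∈ Derived A k, ∃ T : Set A, T.Countable ∧
    ∀ S : NonUnitalSubring A, T ⊆ S → ∃ b ∈ Derived S k, (b : A) = a := by
  induction k with
  | zero =>
    intro a _
    exact ⟨{a}, Set.countable_singleton a, fun S hS =>
      ⟨⟨a, hS rfl⟩, AddSubgroup.mem_top _, rfl⟩⟩
  | succ k ih =>
    intro a ha
    have ha' : a ∈ AddSubgroup.closure {z : A | ∃ u ∈ Derived A k, ∃ v ∈ Derived A k, u * v = z} :=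
      ha
    induction ha' using AddSubgroup.closure_induction with
    | mem x hx =>
      obtain ⟨u, hu, v, hv, rfl⟩ := hx
      obtain ⟨T1, h1, h1'⟩ := ih u hu
      obtain ⟨T2, h2, h2'⟩ := ih v hv
      refine ⟨T1 ∪ T2, h1.union h2, fun S hS => ?_⟩
      obtain ⟨b, hb, hb'⟩ := h1' S (Set.subset_union_left.trans hS)
      obtain ⟨c, hc, hc'⟩ := h2' S (Set.subset_union_right.trans hS)
      refine ⟨b * c, AddSubgroup.subset_closure ⟨b, hb, c, hc, rfl⟩, ?_⟩
      show (b : A) * (c : A) = _
      rw [hb', hc']
    | zero =>
      exact ⟨∅, Set.countable_empty, fun S _ => ⟨0, AddSubgroup.zero_mem _, rfl⟩⟩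
    | add x y hx hy hx' hy' =>
      obtain ⟨T1, h1, h1'⟩ := hx' hx
      obtain ⟨T2, h2, h2'⟩ := hy' hy
      refine ⟨T1 ∪ T2, h1.union h2, fun S hS => ?_⟩
      obtain ⟨b, hb, hb'⟩ := h1' S (Set.subset_union_left.trans hS)
      obtain ⟨c, hc, hc'⟩ := h2' S (Set.subset_union_right.trans hS)
      refine ⟨b + c, AddSubgroup.add_mem _ hb hc, ?_⟩
      show (b : A) + (c : A) = _
      rw [hb', hc']
    | neg x hx hx' =>
      obtain ⟨T1, h1, h1'⟩ := hx' hx
      refine ⟨T1, h1, fun S hS => ?_⟩
      obtain ⟨b, hb, hb'⟩ := h1' S hS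
      refine ⟨-b, AddSubgroup.neg_mem _ hb, ?_⟩
      show -(b : A) = _
      rw [hb']

/-- derived powers under isomorphisms -/
theorem derived_iso {B C : Type} [NonUnitalNonAssocRing B] [NonUnitalNonAssocRing C] (g : B ≃+* C)
    (k : ℕ) : ∀ a ∈ Derived B k, g a ∈ Derived C k := by
  induction k with
  | zero => intro a _; exact AddSubgroup.mem_top _
  | succ k ih =>
    have : Derived B (k + 1) ≤ (Derived C (k + 1)).comap (g : B →+ C) := by
      show AddSubgroup.closure _ ≤ _
      rw [AddSubgroup.closure_le]
      rintro _ ⟨u, hu, v, hv, rfl⟩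
      show g (u * v) ∈ Derived C (k + 1)
      rw [map_mul]
      exact AddSubgroup.subset_closure ⟨_, ih u hu, _, ih v hv, rfl⟩
    intro a ha
    exact this ha

end fin

section model
variable (A : Type) [NonUnitalNonAssocRing A]

attribute [local instance] ringStructure

/-- the function symbols -/
def fadd : RingLang.Functions 2 := (0 : Fin 2)
def fmul : RingLang.Functions 2 := (1 : Fin 2)
def fneg : RingLang.Functions 1 := (0 : Fin 1)
def fzero : RingLang.Functions 0 := (0 : Fin 1)

variable {A}

theorem f_add (x y : A) : Structure.funMap fadd ![x, y] = x + y := by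
  show (if (2 = 2 ∧ Fin.val (0 : Fin 2) = 1) then _ else if (2 = 1) then _ else
    ∑ j : Fin 2, (![x, y] : Fin 2 → A) j) = x + y
  simp [Fin.sum_univ_two]

theorem f_mul (x y : A) : Structure.funMap fmul ![x, y] = x * y := by
  show (if (2 = 2 ∧ Fin.val (1 : Fin 2) = 1) then
    (List.ofFn (![x, y] : Fin 2 → A)).headD 0 * (List.ofFn (![x, y] : Fin 2 → A)).getLastD 0
    else _) = x * y
  simp

theorem f_neg (x : A) : Structure.funMap fneg ![x] = -x := by
  show (if (1 = 2 ∧ Fin.val (0 : Fin 1) = 1) then _ else if (1 = 1) then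
    -(∑ j : Fin 1, (![x] : Fin 1 → A) j) else _) = -x
  simp

theorem f_zero : Structure.funMap fzero (![] : Fin 0 → A) = 0 := by
  show (if (0 = 2 ∧ Fin.val (0 : Fin 1) = 1) then _ else if (0 = 1) then _ else
    ∑ j : Fin 0, (![] : Fin 0 → A) j) = 0
  simp

/-- an elementary substructure as a subring -/
def sub (S : RingLang.ElementarySubstructure A) : NonUnitalSubring A where
  carrier := S
  zero_mem' := by
    have h := S.toSubstructure.fun_mem fzero ![] (fun i => Fin.elim0 i)
    rw [f_zero] at h
    exact h
  add_mem' := by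
    intro x y hx hy
    have h := S.toSubstructure.fun_mem fadd ![x, y] (fun i => by fin_cases i <;> assumption)
    rw [f_add] at h
    exact h
  neg_mem' := by
    intro x hx
    have h := S.toSubstructure.fun_mem fneg ![x] (fun i => by fin_cases i; assumption)
    rw [f_neg] at h
    exact h
  mul_mem' := by
    intro x y hx hy
    have h := S.toSubstructure.fun_mem fmul ![x, y] (fun i => by fin_cases i <;> assumption)
    rw [f_mul] at h
    exact h

theorem mem_sub {S : RingLang.ElementarySubstructure A} {x : A} : x ∈ sub S ↔ x ∈ S := Iff.rfl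

/-- the ring structure of an elementary substructure is the induced structure -/
theorem ind_add {S : RingLang.ElementarySubstructure A} (x y : S) :
    ((Structure.funMap fadd ![x, y] : S) : A) = (x : A) + y := by
  rw [← f_add]
  show Structure.funMap fadd (fun i => ((![x, y] : Fin 2 → S) i : A)) = _
  congr 1
  funext i
  fin_cases i <;> rfl

theorem ind_mul {S : RingLang.ElementarySubstructure A} (x y : S) :
    ((Structure.funMap fmul ![x, y] : S) : A) = (x : A) * y := by
  rw [← f_mul]
  show Structure.funMap fmul (fun i => ((![x, y] : Fin 2 → S) i : A)) = _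
  congr 1
  funext i
  fin_cases i <;> rfl

/-- isomorphisms of elementary substructures are ring isomorphisms -/
theorem iso_ring {S T : RingLang.ElementarySubstructure A} (g : S ≃[RingLang] T) :
    ∃ h : sub S ≃+* sub T, ∀ x : S, ((h ⟨x.1, x.2⟩ : sub T) : A) = (g x : A) := by
  have hadd : ∀ x y : S, ∀ z : S, (z : A) = x + y → (g z : A) = g x + g y := by
    intro x y z hz
    have hz' : z = Structure.funMap fadd ![x, y] := Subtype.ext (by rw [hz, ind_add])
    rw [hz', g.map_fun fadd ![x, y], ← ind_add]
    congr 2
    funext i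
    fin_cases i <;> rfl
  have hmul : ∀ x y : S, ∀ z : S, (z : A) = x * y → (g z : A) = g x * g y := by
    intro x y z hz
    have hz' : z = Structure.funMap fmul ![x, y] := Subtype.ext (by rw [hz, ind_mul])
    rw [hz', g.map_fun fmul ![x, y], ← ind_mul]
    congr 2
    funext i
    fin_cases i <;> rfl
  refine ⟨{ toFun := fun x => ⟨(g ⟨x.1, x.2⟩).1, (g ⟨x.1, x.2⟩).2⟩
            invFun := fun x => ⟨(g.symm ⟨x.1, x.2⟩).1, (g.symm ⟨x.1, x.2⟩).2⟩
            left_inv := ?_
            right_inv := ?_
            map_mul' := ?_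
            map_add' := ?_ }, fun x => rfl⟩
  · intro x
    apply Subtype.ext
    show (g.symm (g ⟨x.1, x.2⟩)).1 = x.1
    rw [g.symm_apply_apply]
  · intro x
    apply Subtype.ext
    show (g (g.symm ⟨x.1, x.2⟩)).1 = x.1
    rw [g.apply_symm_apply]
  · intro x y
    apply Subtype.ext
    exact hmul _ _ _ rfl
  · intro x y
    apply Subtype.ext
    exact hadd _ _ _ rfl

instance : Countable RingLang.Symbols := by
  unfold FirstOrder.Language.Symbols
  have : ∀ n, Countable (RingLang.Functions n) := fun n => by
    unfold RingLang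
    infer_instance
  have : ∀ n, Countable (RingLang.Relations n) := fun n => by
    unfold RingLang
    infer_instance
  infer_instance

/-- countable elementary substructures -/
theorem exists_sub [Uncountable A] (T : Set A) (hT : T.Countable) :
    ∃ S : RingLang.ElementarySubstructure A, T ⊆ S ∧ Cardinal.mk S = Cardinal.aleph0 := by
  obtain ⟨S, h1, h2⟩ := RingLang.exists_elementarySubstructure_card_eq T Cardinal.aleph0.{0} le_rfl
    (by simpa using hT.le_aleph0)
    (by
      have : RingLang.card ≤ Cardinal.aleph0 := Cardinal.mk_le_aleph0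
      simpa using this)
    (by simpa using (Cardinal.aleph0_lt_mk (α := A)).le)
  exact ⟨S, h1, by simpa using h2⟩

theorem iso_of_cat (h : CountablyCategorical A) (S T : RingLang.ElementarySubstructure A)
    (hS : Cardinal.mk S = Cardinal.aleph0) (hT : Cardinal.mk T = Cardinal.aleph0) :
    Nonempty (S ≃[RingLang] T) := by
  have : Nonempty S := ⟨⟨0, (sub S).zero_mem⟩⟩
  have : Nonempty T := ⟨⟨0, (sub T).zero_mem⟩⟩
  let M : (RingLang.completeTheory A).ModelType := FirstOrder.Language.Theory.ModelType.of _ S
  let N : (RingLang.completeTheory A).ModelType := FirstOrder.Language.Theory.ModelType.of _ T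
  exact h M N hS hT

theorem olig_sub (h : CountablyCategorical A) (S : RingLang.ElementarySubstructure A)
    (hS : Cardinal.mk S = Cardinal.aleph0) : Olig (sub S) := by
  classical
  have hc : Countable S := Cardinal.mk_le_aleph0_iff.1 hS.le
  have hi : Infinite S := Cardinal.aleph0_le_mk_iff.1 hS.ge
  have hoc : Pool.Agent.R603.OmegaCategorical RingLang S := by
    intro B _ _ hB
    have hel : S ≅[RingLang] B :=
      FirstOrder.Language.elementarilyEquivalent_iff.2 fun φ =>
        (FirstOrder.Language.realize_iff_of_model_completeTheory S B φ).symm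
    have : Infinite B := hel.infinite
    have : Nonempty S := inferInstance
    have : Nonempty B := inferInstance
    have hB' : B ⊨ RingLang.completeTheory A := by
      have h1 : RingLang.completeTheory S = RingLang.completeTheory A :=
        S.elementarilyEquivalent
      rw [← h1]
      exact hB
    let M : (RingLang.completeTheory A).ModelType := FirstOrder.Language.Theory.ModelType.of _ S
    let N : (RingLang.completeTheory A).ModelType := FirstOrder.Language.Theory.ModelType.of _ B
    exact h M N hS (Cardinal.mk_eq_aleph0 B)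
  obtain ⟨F, hF⟩ := Pool.Agent.R546.RN.oligomorphic_of_omegaCategorical RingLang S hoc 4
  let c : S → sub S := fun x => ⟨x.1, x.2⟩
  refine ⟨F.image (fun s i => c (s i)), fun v => ?_⟩
  obtain ⟨s, hs, g, hg⟩ := hF (fun i => ⟨(v i).1, (v i).2⟩)
  obtain ⟨h', hh⟩ := iso_ring g
  refine ⟨fun i => c (s i), Finset.mem_image_of_mem _ hs, h', fun i => ?_⟩
  apply Subtype.ext
  have := hh (s i)
  rw [hg i] at this
  exact this

end model

/-- **Alternative nilrings, countably categorical, of any cardinality** -/
theorem main (A : Type) [NonUnitalNonAssocRing A] (h : CountablyCategorical A)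
    (hA : Alternative A) (hN : NilRing A) :
    ∃ k e : ℕ, ∀ a ∈ Derived A k, 3 ^ e • a = 0 := by
  by_cases hc : Countable A
  · exact Pool.Agent.J6H59.CC.main (olig_of_categorical A h) hA hN
  · have hu : Uncountable A := not_countable_iff.1 hc
    obtain ⟨S, -, hS⟩ := exists_sub (A := A) ∅ Set.countable_empty
    have hSa : ∀ S' : NonUnitalSubring A, Alternative S' := by
      intro S' x y
      have h := hA x.1 y.1
      exact ⟨Subtype.ext h.1, Subtype.ext h.2⟩
    have hSn : ∀ S' : NonUnitalSubring A, NilRing S' := by
      intro S' x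
      obtain ⟨n, hn⟩ := hN x.1
      refine ⟨n, Subtype.ext ?_⟩
      have := pw_map (fun x : S' => (x : A)) (fun x y => rfl) x n
      rw [hn] at this
      exact this
    obtain ⟨k, e, hke⟩ := Pool.Agent.J6H59.CC.main (olig_sub h S hS) (hSa _) (hSn _)
    refine ⟨k, e, fun a ha => ?_⟩
    obtain ⟨T, hT, hT'⟩ := supp k a ha
    obtain ⟨S1, hT1, hS1⟩ := exists_sub (A := A) T hT
    obtain ⟨b, hb, rfl⟩ := hT' (sub S1) hT1
    obtain ⟨g⟩ := iso_of_cat h S1 S hS1 hS
    obtain ⟨g', -⟩ := iso_ring g
    have h1 := hke _ (derived_iso g' k b hb)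
    rw [← map_nsmul] at h1
    have h2 : 3 ^ e • b = 0 := g'.injective (by rw [h1, map_zero])
    have h3 : ((3 ^ e • b : sub S1) : A) = 0 := by rw [h2]; rfl
    rw [← h3]
    rfl

end Pool.Agent.J6H5.CCLS
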